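import Pool.Agent.WR2.StmtsA
import Pool.Agent.WR2.StmtsB

/-!
# WR2 row SMN: the comparison for small n
-/

set_option autoImplicit false

namespace Pool.Agent.WR2.H25

open Pool.Agent.WIR Pool.Agent.WR2
open scoped BigOperators ENNReal

theorem ws_zero : WS 0 = {0} := by
  decide

theorem ao_zero (hS : StpStmt) (f : ℕ → ℕ → ℝ) {a : ℕ} (ha : 0 < a) : AO 0 f a = f 0 a := by
  unfold AO
  rw [ws_zero, Finset.sum_singleton, (hS (f 0) a ha).1 0, if_pos rfl]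
  norm_num

theorem num25 (C : ℝ) (hC : 1 ≤ C) (n : ℕ) (hn : 6 ≤ n) :
    C * ((n : ℝ) + 1) / (((n / 3 : ℕ) : ℝ) + 1) ^ 3 + Real.exp (-(((n / 3 : ℕ) : ℝ) / 6)) +
      Real.exp (-((n : ℝ) / 120)) ≤ (54 * C + 648 + 28800) / (n : ℝ) ^ 2 := by
  have hn0 : (0 : ℝ) < n := by exact_mod_cast (by omega : 0 < n)
  have hn1 : (1 : ℝ) ≤ n := by exact_mod_cast (by omega : 1 ≤ n)
  set u : ℝ := ((n / 3 : ℕ) : ℝ) with hu
  have hu0 : 0 ≤ u := Nat.cast_nonneg _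
  have hun : (n : ℝ) ≤ 3 * (u + 1) := by
    have h : n ≤ 3 * (n / 3 + 1) := by omega
    have h' : (n : ℝ) ≤ ((3 * (n / 3 + 1) : ℕ) : ℝ) := by exact_mod_cast h
    push_cast at h'
    exact h'
  have e1 : C * ((n : ℝ) + 1) / (u + 1) ^ 3 ≤ 54 * C / (n : ℝ) ^ 2 := by
    rw [div_le_div_iff₀ (by positivity) (by positivity)]
    have h1 : (n : ℝ) ^ 3 ≤ 27 * (u + 1) ^ 3 := by
      have h := pow_le_pow_left₀ hn0.le hun 3
      calc (n : ℝ) ^ 3 ≤ (3 * (u + 1)) ^ 3 := h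
        _ = 27 * (u + 1) ^ 3 := by ring
    have h2 : ((n : ℝ) + 1) * (n : ℝ) ^ 2 ≤ 2 * (n : ℝ) ^ 3 := by nlinarith [pow_pos hn0 2]
    calc C * ((n : ℝ) + 1) * (n : ℝ) ^ 2 = C * (((n : ℝ) + 1) * (n : ℝ) ^ 2) := by ring
      _ ≤ C * (2 * (27 * (u + 1) ^ 3)) :=
          mul_le_mul_of_nonneg_left (h2.trans (by linarith)) (by linarith)
      _ = 54 * C * (u + 1) ^ 3 := by ring
  have e2 : Real.exp (-(u / 6)) ≤ 648 / (n : ℝ) ^ 2 := by
    rw [Real.exp_neg, ← one_div, div_le_div_iff₀ (Real.exp_pos _) (by positivity), one_mul]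
    have h1 := Real.quadratic_le_exp_of_nonneg (by positivity : 0 ≤ u / 6)
    have h2 : (n : ℝ) ^ 2 ≤ 9 * (u + 1) ^ 2 := by
      have h := pow_le_pow_left₀ hn0.le hun 2
      calc (n : ℝ) ^ 2 ≤ (3 * (u + 1)) ^ 2 := h
        _ = 9 * (u + 1) ^ 2 := by ring
    nlinarith
  have e3 : Real.exp (-((n : ℝ) / 120)) ≤ 28800 / (n : ℝ) ^ 2 := by
    rw [Real.exp_neg, ← one_div, div_le_div_iff₀ (Real.exp_pos _) (by positivity), one_mul]
    have h1 := Real.quadratic_le_exp_of_nonneg (by positivity : 0 ≤ (n : ℝ) / 120)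
    nlinarith
  have e4 : (54 * C + 648 + 28800) / (n : ℝ) ^ 2 =
      54 * C / (n : ℝ) ^ 2 + 648 / (n : ℝ) ^ 2 + 28800 / (n : ℝ) ^ 2 := by
    rw [add_div, add_div]
  rw [e4]
  exact add_le_add (add_le_add e1 e2) e3

theorem smn (h1 : StpStmt) (h2 : AvaStmt) (h3 : CmpStmt) (h4 : FcmStmt) : SmnStmt := by
  obtain ⟨C, hC, hcmp⟩ := h3 3
  refine ⟨54 * C + 648 + 28800, by linarith,
    fun n a => max 0 (wr (n / 3) a - gf 0 n (n / 3) a), fun n a => le_max_left _ _, ?_, ?_⟩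
  · intro n q hn hq
    obtain ⟨hlv, hav⟩ := hcmp 0 n (n / 3) (by omega) (by omega)
    obtain ⟨-, hav2⟩ := h2.1 _ q _ hlv hq
    rw [← hav2] at hav
    have hnum := hav.trans (num25 C hC n hn)
    unfold av at hnum
    rw [div_le_iff₀ (by positivity)] at hnum
    calc ∑ a ∈ Finset.Icc 1 (3 ^ q), max 0 (wr (n / 3) a - gf 0 n (n / 3) a)
        ≤ (54 * C + 648 + 28800) / (n : ℝ) ^ 2 * 3 ^ q := hnum
      _ = (54 * C + 648 + 28800) * 3 ^ q / (n : ℝ) ^ 2 := by ring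
  · intro n a hn ha
    obtain ⟨L, hL⟩ := h4 n 0 (n / 3) a (fun _ => n) ha (by
      intro l1 hl1
      rw [ws_zero, Finset.mem_singleton] at hl1
      subst hl1
      simp)
    refine ⟨L, ?_⟩
    have e1 : Tht 0 (n / 3) a = wr (n / 3) a := ao_zero h1 _ ha
    rw [e1, ao_zero h1 _ ha] at hL
    exact hL

end Pool.Agent.WR2.H25
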